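import Pool.Agent.W8h56.SW.Rows
import Pool.Agent.W8h56.SW.Hyp

/-!
# Rows of flats with virtually nested common stabilisers

The 1-skeleta of CAT(0) cube complexes are the median graphs (Chepoi, Gerasimov, Roller).  A
combinatorial flat is an isometric embedding `f` of the square grid into the 1-skeleton.  For a
number `n` let `H(y)` be the common stabiliser of the `n + 1` half-spaces below the hyperplanes
between the consecutive rows `y`, …, `y + n + 1` of `f`.

Theorem: let `G` act geometrically on a CAT(0) cube complex and suppose that `G` does not contain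
`ℤ²` and is not hyperbolic.  Then there are flats, and there is `M`, depending only on the action
and on `n`, such that for any rows `y 0 < … < y M` of any flat `H(y i)` is not virtually contained
in `H(y (i + 1))` for some `i`, and `H(y (i + 1))` is not virtually contained in `H(y i)` for
some `i`.  In particular at most `M` of the groups `H(y)` are commensurable with a given
subgroup, and among any `M` consecutive rows there is one such that the common stabiliser of `n + 2`
consecutive half-spaces has infinite index in that of the first `n + 1` of them.  So Q1 has a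
positive answer if in some flat there are `M + 1` rows with commensurable groups `H(y)`, for
instance if the hyperplanes between the rows are parallel (as those of the first factor of a product
of a tree with another complex) or if the common stabilisers of `n + 1` consecutive half-spaces
are virtually cyclic.

Idea of the proof.  Suppose that `H(y i)` is virtually contained in `H(y (i + 1))` for all `i`.  By
the pigeonhole principle there are two of these rows, `t < t'`, with nested hyperplanes, and `γ` in
`G` which maps a piece of the row `t` to one of the row `t'` and preserves the hyperplane of a column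
`x`, while some `s` in all of the groups `H` translates this hyperplane (skewers it).  Let `S` be
the convex set of the first vertices of the paths of length `n + 1` parallel to the column at the
height `t'`.  The group `H(t')` acts on it with finitely many orbits.  So `θ = s γ⁻¹` maps `S` into a
neighbourhood of `S`, and the hyperplanes `θ ^ k w`, where `w` is that of the column `x`, all
cross `S`.  Projecting and iterating we find edges of `S` crossing the hyperplanes `θ ^ k w` which
are moved by `θ` by bounded distances.  By the pigeonhole principle some `k` which commutes with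
`θ` maps one of them to another one and preserves the half-space above the row `t'`, while `θ` does
not.  So `θ` and `k` generate `ℤ²`.
-/

set_option autoImplicit false

namespace Pool.Agent.Results.MP_140312_al.CommensurableRows

open Pool.Agent.W5h69.CR Pool.Agent.W8h56.SW

variable {V : Type*} {Γ : SimpleGraph V} {G : Type*} [Group G] [MulAction G V] {K : Set V}

/-- The common stabiliser of the `n + 1` half-spaces below the hyperplanes between the consecutive
rows `y`, …, `y + n + 1` of the flat `f`. -/
def rowStab {V : Type*} (Γ : SimpleGraph V) (G : Type*) [Group G] [MulAction G V] (f : ℤ × ℤ → V)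
    (n : ℕ) (y : ℤ) : Subgroup G :=
  halfStab Γ G (fun k => f (0, y + k)) n

theorem up (hG : Geo Γ G K) (n : ℕ) : ∃ M : ℕ, ∀ f : ℤ × ℤ → V, IsFlat Γ f → ∀ y : ℕ → ℤ,
    (∀ i j, i < j → j ≤ M → y i < y j) →
    (∀ i < M, (rowStab Γ G f n (y (i + 1))).relIndex (rowStab Γ G f n (y i)) ≠ 0) →
    ∃ φ : Multiplicative (ℤ × ℤ) →* G, Function.Injective φ := by
  obtain ⟨M, hM⟩ := main_rows hG n
  refine ⟨M, fun f hf y hy h => hM f hf y hy fun i j hij hj => ?_⟩
  obtain ⟨d, rfl⟩ := Nat.exists_eq_add_of_lt hij
  clear hij
  induction d with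
  | zero => exact h i (by omega)
  | succ d ih =>
    exact Subgroup.relIndex_ne_zero_trans (h (i + d + 1) (by omega)) (ih (by omega))

theorem flip_flat {f : ℤ × ℤ → V} (hf : IsFlat Γ f) : IsFlat Γ (fun z => f (z.1, -z.2)) :=
  fun z w => by
    rw [hf]
    simp only
    rw [show -z.2 - -w.2 = -(z.2 - w.2) by ring, abs_neg]

theorem flip_stab (h : IsMedian Γ) {f : ℤ × ℤ → V} (hf : IsFlat Γ f) (n : ℕ) (y : ℤ) :
    rowStab Γ G (fun z => f (z.1, -z.2)) n (-y - n - 1) = rowStab Γ G f n y := by
  have key : ∀ j : ℕ, j ≤ n → ∀ g : G,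
      (∀ v, v ∈ side Γ (f (0, -(-y - n - 1 + (j : ℤ)))) (f (0, -(-y - n - 1 + ((j + 1 : ℕ) : ℤ))))
        ↔ g • v ∈ side Γ (f (0, -(-y - n - 1 + (j : ℤ))))
          (f (0, -(-y - n - 1 + ((j + 1 : ℕ) : ℤ))))) ↔
      (∀ v, v ∈ side Γ (f (0, y + ((n - j : ℕ) : ℤ))) (f (0, y + ((n - j + 1 : ℕ) : ℤ)))
        ↔ g • v ∈ side Γ (f (0, y + ((n - j : ℕ) : ℤ))) (f (0, y + ((n - j + 1 : ℕ) : ℤ)))) := by
    intro j hj g
    have e1 : -(-y - n - 1 + (j : ℤ)) = y + ((n - j + 1 : ℕ) : ℤ) := by
      push_cast [Nat.cast_sub hj]
      ring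
    have e2 : -(-y - n - 1 + ((j + 1 : ℕ) : ℤ)) = y + ((n - j : ℕ) : ℤ) := by
      push_cast [Nat.cast_sub hj]
      ring
    have hadj : Γ.Adj (f (0, y + ((n - j : ℕ) : ℤ))) (f (0, y + ((n - j + 1 : ℕ) : ℤ))) := by
      push_cast
      rw [← add_assoc]
      exact hf.up _ _
    rw [e1, e2, side_compl h hadj]
    simp only [Set.mem_compl_iff, not_iff_not]
  ext g
  constructor
  · intro hg j hj
    have := (key (n - j) (by omega) g).1 (hg (n - j) (by omega))
    rwa [show n - (n - j) = j by omega] at this
  · intro hg j hj
    exact (key j hj g).2 (hg (n - j) (by omega))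

theorem down (hG : Geo Γ G K) (n : ℕ) : ∃ M : ℕ, ∀ f : ℤ × ℤ → V, IsFlat Γ f → ∀ y : ℕ → ℤ,
    (∀ i j, i < j → j ≤ M → y i < y j) →
    (∀ i < M, (rowStab Γ G f n (y i)).relIndex (rowStab Γ G f n (y (i + 1))) ≠ 0) →
    ∃ φ : Multiplicative (ℤ × ℤ) →* G, Function.Injective φ := by
  obtain ⟨M, hM⟩ := up hG n
  refine ⟨M, fun f hf y hy h => hM _ (flip_flat hf) (fun i => -(y (M - i)) - n - 1)
    (fun i j hij hj => ?_) fun i hi => ?_⟩
  · have := hy (M - j) (M - i) (by omega) (by omega)
    omega
  · rw [flip_stab hG.med hf, flip_stab hG.med hf]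
    have := h (M - (i + 1)) (by omega)
    rwa [show M - (i + 1) + 1 = M - i by omega] at this

/-- Let `Γ` be a locally finite median graph (the 1-skeleton of a CAT(0) cube complex) and let `G`
act on it by automorphisms, with finite stabilisers and finitely many orbits.  For every `n` there is
`M` such that `G` has a subgroup isomorphic to `ℤ²`, or the geodesic triangles of `Γ` are uniformly
slim (equivalently `G` is hyperbolic), or there are combinatorial flats and for all of them and all
rows `y 0 < y 1 < … < y M` the groups `H(i) = rowStab Γ G f n (y i)` are neither virtually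
increasing nor virtually decreasing: `H(i) ⊓ H(i + 1)` has infinite index in `H(i)` for some `i < M`
and in `H(i + 1)` for some `i < M`. -/
theorem result {V : Type*} (Γ : SimpleGraph V) (hΓ : IsMedian Γ)
    (hloc : ∀ v : V, (Γ.neighborSet v).Finite) {G : Type*} [Group G] [MulAction G V]
    (hadj : ∀ (g : G) (v w : V), Γ.Adj v w → Γ.Adj (g • v) (g • w))
    (hstab : ∀ v : V, Finite (MulAction.stabilizer G v))
    (hcc : ∃ K : Set V, K.Finite ∧ ∀ v : V, ∃ g : G, g • v ∈ K) (n : ℕ) :
    ∃ M : ℕ, (∃ φ : Multiplicative (ℤ × ℤ) →* G, Function.Injective φ) ∨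
      (∃ δ : ℕ, SlimTriangles Γ δ) ∨
      ((∃ f : ℤ × ℤ → V, IsFlat Γ f) ∧ ∀ f : ℤ × ℤ → V, IsFlat Γ f →
        ∀ y : ℕ → ℤ, StrictMono y →
          (∃ i < M, (rowStab Γ G f n (y (i + 1))).relIndex (rowStab Γ G f n (y i)) = 0) ∧
          ∃ i < M, (rowStab Γ G f n (y i)).relIndex (rowStab Γ G f n (y (i + 1))) = 0) := by
  obtain ⟨K, hK, hcov⟩ := hcc
  have hG : Geo Γ G K :=
    ⟨hΓ, hloc, hadj, fun v => Set.toFinite (MulAction.stabilizer G v : Set G), hK, hcov⟩
  obtain ⟨M₁, h₁⟩ := up hG n
  obtain ⟨M₂, h₂⟩ := down hG n
  refine ⟨max M₁ M₂, ?_⟩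
  by_cases hno : ∃ f, IsFlat Γ f
  · by_cases hZ : ∃ φ : Multiplicative (ℤ × ℤ) →* G, Function.Injective φ
    · exact Or.inl hZ
    · refine Or.inr (Or.inr ⟨hno, fun f hf y hy => ⟨?_, ?_⟩⟩)
      · by_contra hcon
        refine hZ (h₁ f hf y (fun i j hij _ => hy hij) fun i hi h0 => ?_)
        exact hcon ⟨i, lt_of_lt_of_le hi (le_max_left _ _), h0⟩
      · by_contra hcon
        refine hZ (h₂ f hf y (fun i j hij _ => hy hij) fun i hi h0 => ?_)
        exact hcon ⟨i, lt_of_lt_of_le hi (le_max_right _ _), h0⟩
  · exact Or.inr (Or.inl (hyp_of_noFlat hG hno))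

end Pool.Agent.Results.MP_140312_al.CommensurableRows
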