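import Pool.Agent.W8h56.SW.Dich
import Pool.Agent.W8h56.SW.Hyp

/-!
# Flats with common stabilisers of hyperplanes which are virtually cyclic or of finite index

The 1-skeleta of CAT(0) cube complexes are the median graphs (Chepoi, Gerasimov, Roller).  A
combinatorial flat is an isometric embedding `f` of the square grid into the 1-skeleton.  For a
number `n` and a row `y` of `f` let `H(y, n)` be the common stabiliser of the `n + 1` half-spaces
below the hyperplanes between the consecutive rows `y`, …, `y + n + 1` of `f`.

Theorem: let `G` act geometrically on a CAT(0) cube complex and suppose that `G` does not contain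
`ℤ²` and is not hyperbolic.  Then there are flats, and for every `n` there is `M` such that among any
`M` consecutive rows of any flat there is a row `y` such that `H(y, n + 1)` is not virtually cyclic
and has infinite index in `H(y, n)`.  So Q1 has a positive answer if for some `n` and for
all chains of `n + 2` hyperplanes which are consecutive in a flat, the stabiliser of the chain
is virtually cyclic or of finite index in the stabiliser of the first `n + 1` hyperplanes; for
`n = 0`: if the intersection of the stabilisers of two hyperplanes which are consecutive in a flat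
is virtually cyclic or of finite index in the first of them.

Idea of the proof.  By the theorem on virtually nested stabilisers (see `CommensurableRows`) there
are at most `M₁` consecutive rows of the second kind.  So every block of `M₁` rows has a row
`y` with `H(y, n + 1)` virtually cyclic, and then the stabiliser `H(b, n + 1 + M₁)`, `b` the first
row of the block, is virtually cyclic, too.  By the pigeonhole principle any two rows have
a common element of infinite order in these groups.  So the groups `H(b, n + 1 + M₁)` for different
blocks are commensurable, and the theorem on virtually nested stabilisers applies again, now for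
chains of length `n + 2 + M₁`.
-/

set_option autoImplicit false

namespace Pool.Agent.Results.MP_140312_al.CyclicOrFiniteIndex

open Pool.Agent.W5h69.CR Pool.Agent.W8h56.SW

/-- The common stabiliser of the `n + 1` half-spaces below the hyperplanes between the consecutive
rows `y`, …, `y + n + 1` of the flat `f`. -/
def rowStab {V : Type*} (Γ : SimpleGraph V) (G : Type*) [Group G] [MulAction G V] (f : ℤ × ℤ → V)
    (n : ℕ) (y : ℤ) : Subgroup G :=
  halfStab Γ G (fun k => f (0, y + k)) n

/-- Let `Γ` be a locally finite median graph (the 1-skeleton of a CAT(0) cube complex) and let `G`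
act on it by automorphisms, with finite stabilisers and finitely many orbits.  For every `n` there is
`M` such that `G` has a subgroup isomorphic to `ℤ²`, or the geodesic triangles of `Γ` are uniformly
slim (equivalently `G` is hyperbolic), or there are combinatorial flats and among any `M` consecutive
rows of each of them there is a row `y` such that `rowStab Γ G f (n + 1) y` is not virtually cyclic
and has infinite index in `rowStab Γ G f n y`. -/
theorem result {V : Type*} (Γ : SimpleGraph V) (hΓ : IsMedian Γ)
    (hloc : ∀ v : V, (Γ.neighborSet v).Finite) {G : Type*} [Group G] [MulAction G V]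
    (hadj : ∀ (g : G) (v w : V), Γ.Adj v w → Γ.Adj (g • v) (g • w))
    (hstab : ∀ v : V, Finite (MulAction.stabilizer G v))
    (hcc : ∃ K : Set V, K.Finite ∧ ∀ v : V, ∃ g : G, g • v ∈ K) (n : ℕ) :
    ∃ M : ℕ, (∃ φ : Multiplicative (ℤ × ℤ) →* G, Function.Injective φ) ∨
      (∃ δ : ℕ, SlimTriangles Γ δ) ∨
      ((∃ f : ℤ × ℤ → V, IsFlat Γ f) ∧ ∀ f : ℤ × ℤ → V, IsFlat Γ f →
        ∀ y₀ : ℤ, ∃ y, y₀ ≤ y ∧ y < y₀ + M ∧ ¬ VirtuallyCyclic (rowStab Γ G f (n + 1) y) ∧
          (rowStab Γ G f (n + 1) y).relIndex (rowStab Γ G f n y) = 0) := by
  obtain ⟨K, hK, hcov⟩ := hcc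
  have hG : Geo Γ G K :=
    ⟨hΓ, hloc, hadj, fun v => Set.toFinite (MulAction.stabilizer G v : Set G), hK, hcov⟩
  obtain ⟨M, hM⟩ := main_dich hG n
  refine ⟨M, ?_⟩
  by_cases hno : ∃ f, IsFlat Γ f
  · by_cases hZ : ∃ φ : Multiplicative (ℤ × ℤ) →* G, Function.Injective φ
    · exact Or.inl hZ
    · refine Or.inr (Or.inr ⟨hno, fun f hf y₀ => ?_⟩)
      by_contra hcon
      refine hZ (hM f hf y₀ fun y h1 h2 => ?_)
      by_cases h3 : VirtuallyCyclic (rowStab Γ G f (n + 1) y)
      · obtain ⟨z, -, hz⟩ := h3
        exact Or.inl ⟨z, hz.index_ne_zero⟩
      · exact Or.inr fun h4 => hcon ⟨y, h1, h2, h3, h4⟩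
  · exact Or.inr (Or.inl (hyp_of_noFlat hG hno))

end Pool.Agent.Results.MP_140312_al.CyclicOrFiniteIndex
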