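import Pool.Agent.W5h69.CR.Gen

/-!
# Translates of a flat of a cubulated group without `ℤ²` meet it in large finite rectangles

The 1-skeleta of CAT(0) cube complexes are the median graphs (Chepoi, Gerasimov, Roller).  A
combinatorial flat is an isometric embedding `f` of the square grid into the 1-skeleton.  If `G` acts
geometrically on a CAT(0) cube complex, then combinatorial flats exist if and only if `G` is not
hyperbolic.

Theorem: if `G` has no subgroup `ℤ²`, then for every flat and every `n` there is `g ∈ G` which carries
a rectangle `R` with sides at least `n` of the flat by a horizontal translation into the flat, and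
`R` is finite and maximal.  If the flat is convex, for instance if the cube complex is of
dimension two, then the intersection of the flat with its translate by `g` is exactly a finite
rectangle.  So if two translates of the flat which agree along an `n × n` square always agree along an
infinite strip, then `G` contains `ℤ²`.

Idea of the proof.  Two flats which agree along a piece of a row and at one further vertex above it
agree along the piece of the next row, as a median graph contains no `K_{2,3}`.  So two translates
which agree along a square agree along a half-strip in one of the four directions or have a finite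
maximal rectangle of agreement.  Let `g` carry `f (x, y)` to `f (x + a, y)` in a square; such `g`
exist by the pigeonhole principle, and one may take the walls of the columns `x` and `x + a`
disjoint, since pairwise crossing walls have a common vertex by Helly's theorem.  If the agreement
extends to a vertical half-strip, some `k` which commutes with `g` translates this half-strip
along itself, and `g` and `k` generate `ℤ²`, as can be seen from the action on the walls.  If it
always extends to a horizontal half-strip, then all rows are translated by the same distance by
elements with a common power, and again one finds a long vertical strip which is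
translated horizontally.
-/

set_option autoImplicit false

namespace Pool.Agent.Results.MP_140312_al.FiniteOverlaps

open Pool.Agent.W5h69.CR

/-- Let `Γ` be a locally finite median graph (the 1-skeleton of a CAT(0) cube complex), let `G` act on
it by automorphisms, with finite stabilisers and finitely many orbits, and suppose that `G` has no
subgroup isomorphic to `ℤ²`.  Let `f` be a combinatorial flat and let `n` be a natural number.  There
are `g ∈ G`, `a > 0` and a finite rectangle `R = [p, q] × [r, s]` with sides at least `n` such that
`g • f z = f (z + (a, 0))` for all `z` in `R`, but for no vertex `z` of the grid adjacent to a side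
of `R`.  If moreover the image of `f` is convex, or `Γ` contains no cube of dimension three, then
`g • f z = f w` if and only if `w = z + (a, 0)` and `z` is in `R`. -/
theorem result {V : Type*} (Γ : SimpleGraph V) (hΓ : IsMedian Γ)
    (hloc : ∀ v : V, (Γ.neighborSet v).Finite) {G : Type*} [Group G] [MulAction G V]
    (hadj : ∀ (g : G) (v w : V), Γ.Adj v w → Γ.Adj (g • v) (g • w))
    (hstab : ∀ v : V, Finite (MulAction.stabilizer G v))
    (hcc : ∃ K : Set V, K.Finite ∧ ∀ v : V, ∃ g : G, g • v ∈ K)
    (hZ : ¬ ∃ φ : Multiplicative (ℤ × ℤ) →* G, Function.Injective φ)
    (f : ℤ × ℤ → V) (hf : IsFlat Γ f) (n : ℕ) :
    ∃ (g : G) (a p q r s : ℤ), 0 < a ∧ n ≤ q - p ∧ n ≤ s - r ∧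
      MaximalAgreement (fun z => g • f z) (fun z => f (z + (a, 0))) p q r s ∧
      (ConvexImage Γ f ∨ ¬ HasCube Γ → ∀ z w : ℤ × ℤ, g • f z = f w ↔
        w = z + (a, 0) ∧ p ≤ z.1 ∧ z.1 ≤ q ∧ r ≤ z.2 ∧ z.2 ≤ s) := by
  obtain ⟨K, hK, hcov⟩ := hcc
  have hG : Geo Γ G K :=
    ⟨hΓ, hloc, hadj, fun v => Set.toFinite (MulAction.stabilizer G v : Set G), hK, hcov⟩
  exact final hG hf n hZ

end Pool.Agent.Results.MP_140312_al.FiniteOverlaps
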