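import Pool.Agent.W8h56.SW.Cyc
import Pool.Agent.W8h56.SW.Hyp

/-!
# Flats crossed by hyperplanes with separable or virtually cyclic common stabilisers

The 1-skeleta of CAT(0) cube complexes are the median graphs (Chepoi, Gerasimov, Roller).  A
combinatorial flat is an isometric embedding `f` of the square grid into the 1-skeleton.  The
hyperplane between the rows `y` and `y + 1` of `f` is the hyperplane crossed by the edge from
`f (0, y)` to `f (0, y + 1)`.

Let `G` act geometrically on a CAT(0) cube complex, let `n` be a natural number and let `N` be a
subgroup of finite index.  Call a row `y` of a flat tame if one of the following holds: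

* among the `n + 1` hyperplanes between consecutive rows from `y` to `y + n + 1` there are some,
  the last one being one of them, whose common stabiliser is separable in `G`;
* among them there are some whose common stabiliser is virtually cyclic;
* the last of them neither crosses nor directly osculates itself in the quotient by `N`.

Theorem: if `G` does not contain `ℤ²` and is not hyperbolic then there are flats and in each of them
there is a row which is not tame among any `M` consecutive rows, `M` depending only on the action,
`N` and `n`.  So Q1 has a positive answer if each flat contains `M` consecutive tame rows, for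
instance if the stabilisers of the hyperplanes are separable, or if for some `n` the common
stabilisers of `n + 1` hyperplanes consecutive in a flat are separable or virtually cyclic.

Idea of the proof.  By separability and as there are finitely many orbits there is a subgroup `N'` of
finite index such that no element of `N'` which preserves the hyperplanes of a family as in the
first condition but the last maps the last one to a different one at the same vertex.  By the
pigeonhole principle some `g ∈ N ⊓ N'` carries `f (x, y)` to `f (x + a, y)` in a small
rectangle, where the hyperplanes of the columns are nested.  Along tame rows of the first or third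
kind the agreement propagates upwards, and if it extends far enough some `k` which commutes with `g`
translates the column, so `g` and `k` generate `ℤ²`.  If there are many rows of the second kind, then
two of them are carried to each other by some `γ`, the hyperplanes being nested, and some `s` of
infinite order translates both of them; so `γ s ^ p γ⁻¹ = s ^ q`, then `p = ± q` as the
translation lengths are positive, and `γ ^ 2` commutes with `s ^ p`.  Finally, in a median graph
without large isometrically embedded grids geodesic triangles are slim, and large grids converge
to a flat up to the action.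
-/

set_option autoImplicit false

namespace Pool.Agent.Results.MP_140312_al.SeparableWalls

open Pool.Agent.W5h69.CR Pool.Agent.W8h56.SW

/-- The row `y` of the flat `f` is tame (with respect to `n` and to the subgroup `N`): some of the
`n + 1` hyperplanes between the consecutive rows from `y` to `y + n + 1`, including the last, have a
separable common stabiliser, or some of them have a virtually cyclic common stabiliser, or the last
one is clean modulo `N`. -/
def Tame {V : Type*} (Γ : SimpleGraph V) {G : Type*} [Group G] [MulAction G V] (N : Subgroup G)
    (n : ℕ) (f : ℤ × ℤ → V) (y : ℤ) : Prop :=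
  (∃ J : Finset ℕ, (∀ j ∈ J, j ≤ n) ∧ n ∈ J ∧
    Separable (chainStab Γ G (fun j => f (0, y + j)) J)) ∨
  (∃ J : Finset ℕ, (∀ j ∈ J, j ≤ n) ∧
    VirtuallyCyclic (chainStab Γ G (fun j => f (0, y + j)) J)) ∨
  Clean Γ N (f (0, y + n)) (f (0, y + n + 1))

/-- Let `Γ` be a locally finite median graph (the 1-skeleton of a CAT(0) cube complex) and let `G`
act on it by automorphisms, with finite stabilisers and finitely many orbits.  Let `N` be a subgroup
of finite index of `G` and let `n` be a natural number.  There is `M` such that `G` has a subgroup
isomorphic to `ℤ²`, or the geodesic triangles of `Γ` are uniformly slim (equivalently `G` is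
hyperbolic), or there are combinatorial flats and each of them has a row which is not tame among any
`M` consecutive rows. -/
theorem result {V : Type*} (Γ : SimpleGraph V) (hΓ : IsMedian Γ)
    (hloc : ∀ v : V, (Γ.neighborSet v).Finite) {G : Type*} [Group G] [MulAction G V]
    (hadj : ∀ (g : G) (v w : V), Γ.Adj v w → Γ.Adj (g • v) (g • w))
    (hstab : ∀ v : V, Finite (MulAction.stabilizer G v))
    (hcc : ∃ K : Set V, K.Finite ∧ ∀ v : V, ∃ g : G, g • v ∈ K)
    (N : Subgroup G) [N.FiniteIndex] (n : ℕ) :
    ∃ M : ℕ, (∃ φ : Multiplicative (ℤ × ℤ) →* G, Function.Injective φ) ∨
      (∃ δ : ℕ, SlimTriangles Γ δ) ∨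
      ((∃ f : ℤ × ℤ → V, IsFlat Γ f) ∧ ∀ f : ℤ × ℤ → V, IsFlat Γ f →
        ∀ y₀ : ℤ, ∃ y, y₀ ≤ y ∧ y < y₀ + M ∧ ¬ Tame Γ N n f y) := by
  obtain ⟨K, hK, hcov⟩ := hcc
  have hG : Geo Γ G K :=
    ⟨hΓ, hloc, hadj, fun v => Set.toFinite (MulAction.stabilizer G v : Set G), hK, hcov⟩
  obtain ⟨M, hM⟩ := main hG N n
  refine ⟨M, ?_⟩
  by_cases hno : ∃ f, IsFlat Γ f
  · by_cases hZ : ∃ φ : Multiplicative (ℤ × ℤ) →* G, Function.Injective φ
    · exact Or.inl hZ
    · refine Or.inr (Or.inr ⟨hno, fun f hf y₀ => ?_⟩)
      by_contra hcon
      refine hZ (hM f hf y₀ fun y h1 h2 => ?_)
      by_contra h3
      exact hcon ⟨y, h1, h2, h3⟩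
  · exact Or.inr (Or.inl (hyp_of_noFlat hG hno))

end Pool.Agent.Results.MP_140312_al.SeparableWalls
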